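import Pool.Agent.NFG.FinR

/-!
# Good primes for nilpotent fusion categories (MP_3062fa_al, Q1)

`K` is an algebraically closed field of characteristic `0`, `O` a valuation ring of `K` in which the prime `p` is not
invertible, and `C` a nilpotent fusion category over `K` with simple objects `S i`, `i : ι`.

If `p` is relatively prime to the Frobenius-Perron dimensions of all simple objects, then `C` has an `O`-form (and
hence a good reduction modulo the maximal ideal of `O`), and the `O`-form is unique up to rescaling the simple objects.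
There is no condition on `p` and the dimension of `C`.
-/

set_option autoImplicit false

open CategoryTheory MonoidalCategory

namespace Pool.Agent.Results.MP_3062fa_al.NilpotentCategories

open Pool.Agent.NFG

universe v u w

/-- The integer `p` and the algebraic integer `x` are relatively prime. -/
def RelPrime (p : ℕ) (x : ℝ) : Prop := ∃ a b : ℝ, IsIntegral ℤ a ∧ IsIntegral ℤ b ∧ a * p + b * x = 1

theorem not_dvd_of_relPrime {p : ℕ} (hp : p.Prime) {x : ℝ} (h : RelPrime p x) {n : ℕ} (hn : x ^ 2 = (n : ℝ)) :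
    ¬ p ∣ n := by
  rintro ⟨m, rfl⟩
  obtain ⟨a, b, ha, hb, hab⟩ := h
  have hp0 : (p : ℝ) ≠ 0 := by exact_mod_cast hp.ne_zero
  have h1 : (p : ℝ) * (b ^ 2 * m + 2 * a - a ^ 2 * p) = 1 := by
    have h2 : b * x = 1 - a * p := by linarith
    have h3 : b ^ 2 * x ^ 2 = (1 - a * p) ^ 2 := by rw [← mul_pow, h2]
    rw [hn] at h3
    push_cast at h3
    linear_combination h3
  have hint : IsIntegral ℤ (b ^ 2 * m + 2 * a - a ^ 2 * p : ℝ) := by
    have hm : IsIntegral ℤ (m : ℝ) := by
      have := isIntegral_algebraMap (R := ℤ) (A := ℝ) (x := (m : ℤ))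
      simpa using this
    have hpp : IsIntegral ℤ (p : ℝ) := by
      have := isIntegral_algebraMap (R := ℤ) (A := ℝ) (x := (p : ℤ))
      simpa using this
    have h2 : IsIntegral ℤ (2 : ℝ) := by
      have := isIntegral_algebraMap (R := ℤ) (A := ℝ) (x := (2 : ℤ))
      simpa using this
    exact (((hb.pow 2).mul hm).add (h2.mul ha)).sub ((ha.pow 2).mul hpp)
  have hq : (b ^ 2 * m + 2 * a - a ^ 2 * p : ℝ) = algebraMap ℚ ℝ ((p : ℚ)⁻¹) := by
    rw [eq_ratCast, Rat.cast_inv, Rat.cast_natCast]
    field_simp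
    linarith
  rw [hq] at hint
  have hint2 : IsIntegral ℤ ((p : ℚ)⁻¹) := (isIntegral_algebraMap_iff (algebraMap ℚ ℝ).injective).1 hint
  obtain ⟨z, hz⟩ := IsIntegrallyClosed.isIntegral_iff.1 hint2
  have hpq : (p : ℚ) ≠ 0 := by exact_mod_cast hp.ne_zero
  have hz2 : (z * p : ℤ) = 1 := by
    have : (z : ℚ) * p = 1 := by
      have h5 : (z : ℚ) = (p : ℚ)⁻¹ := by simpa using hz
      rw [h5]
      field_simp
    exact_mod_cast this
  have h6 : (p : ℤ) ∣ 1 := ⟨z, by rw [mul_comm]; exact hz2.symm⟩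
  have h7 : p ∣ 1 := by exact_mod_cast h6
  exact hp.one_lt.ne' (Nat.dvd_one.1 h7)

/-- Q1 for nilpotent fusion categories. -/
theorem result {K : Type w} [Field K] [IsAlgClosed K] [CharZero K] {C : Type u} [Category.{v} C] [Preadditive C]
    [Linear K C] [MonoidalCategory C] [MonoidalPreadditive C] [MonoidalLinear K C] [RigidCategory C] {ι : Type}
    [Fintype ι] [DecidableEq ι] (F : Fus K C ι) (hN : F.Nlp Set.univ) (O : Subring K) (hO : Val O) (p : ℕ)
    (hp : p.Prime) (hpO : ((p : K))⁻¹ ∉ O) (f : ι → ℝ) (hf : IsFPdim F f) (h : ∀ i : ι, RelPrime p (f i)) :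
    ∃ L : F.Sy, F.IsForm O L ∧ ∀ L' : F.Sy, F.IsForm O L' →
      ∃ g : ι → K, (∀ i, g i ≠ 0) ∧ ∀ i j k, L' i j k = smS (g i * g j * (g k)⁻¹) (L i j k) :=
  main_rigid hO hp hpO F hN hf (fun i _ hn => not_dvd_of_relPrime hp (h i) hn)

end Pool.Agent.Results.MP_3062fa_al.NilpotentCategories
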